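import Pool.Agent.H33SSE.Final
import Pool.Agent.Results.MP_993212_an.FullShiftComponentsSSE

/-!
# MP_993212_an: all `2 × 2` matrices over `ℕ` with `500 |det| ≤ tr²`

For every `2 × 2` matrix `A` over `ℕ` with `500 |det A| ≤ (tr A)²` and every `2 × 2` matrix `B`
over `ℕ`, strong shift equivalence and shift equivalence over `ℕ` coincide; if all off-diagonal
entries are positive they also coincide with shift equivalence over `ℤ`.  For integer eigenvalues
`m ≠ 0`, `y` (the case left out by `ShiftEqSmallDet`) there is an explicit arithmetic criterion.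
-/

set_option autoImplicit false

namespace Pool.Agent.Results.MP_993212_an.AllSmallDet

open Matrix

/-- Elementary equivalence of square matrices over `ℕ`: `A = R S`, `B = S R` for rectangular
matrices `R`, `S` over `ℕ`. -/
def Elem (X Y : Σ n : ℕ, Matrix (Fin n) (Fin n) ℕ) : Prop :=
  ∃ (R : Matrix (Fin X.1) (Fin Y.1) ℕ) (S : Matrix (Fin Y.1) (Fin X.1) ℕ),
    X.2 = R * S ∧ Y.2 = S * R

/-- Strong shift equivalence over `ℕ` (a finite chain of elementary equivalences). -/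
def SSE {n m : ℕ} (A : Matrix (Fin n) (Fin n) ℕ) (B : Matrix (Fin m) (Fin m) ℕ) : Prop :=
  Relation.TransGen Elem ⟨n, A⟩ ⟨m, B⟩

/-- Shift equivalence of square matrices over a semiring `k` (used for `k = ℕ` and `k = ℤ`). -/
def SE (k : Type) [Semiring k] {n m : ℕ} (A : Matrix (Fin n) (Fin n) k)
    (B : Matrix (Fin m) (Fin m) k) : Prop :=
  ∃ l, 1 ≤ l ∧ ∃ (R : Matrix (Fin n) (Fin m) k) (S : Matrix (Fin m) (Fin n) k),
    A ^ l = R * S ∧ B ^ l = S * R ∧ A * R = R * B ∧ S * A = B * S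

/-- The same matrix over `ℤ`. -/
abbrev toZ {n : ℕ} (A : Matrix (Fin n) (Fin n) ℕ) : Matrix (Fin n) (Fin n) ℤ :=
  A.map (Nat.cast : ℕ → ℤ)

/-- Both off-diagonal entries are positive (for `2 × 2` matrices: `A` is irreducible). -/
def Pos (A : Matrix (Fin 2) (Fin 2) ℕ) : Prop := 0 < A 0 1 ∧ 0 < A 1 0

/-- `A` is conjugate over `ℤ` (by a matrix of determinant `± 1`) to the lower triangular matrix
with rows `(m, 0)`, `(k, y)`. -/
def HasClass (m y k : ℤ) (A : Matrix (Fin 2) (Fin 2) ℕ) : Prop :=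
  ∃ U : Matrix (Fin 2) (Fin 2) ℤ, IsUnit U.det ∧ U * !![m, 0; k, y] = toZ A * U

lemma sse_of_Q {A B : Matrix (Fin 2) (Fin 2) ℕ} (h : Pool.Agent.TH441.SSE2.Q (toZ A) (toZ B)) :
    SSE A B :=
  Pool.Agent.Y321.SE2.transGen_of_Q (fun _ _ R S => ⟨R, S, rfl, rfl⟩) A B h

lemma se_of_sse {A B : Matrix (Fin 2) (Fin 2) ℕ} (h : SSE A B) : SE ℕ A B :=
  Pool.Agent.Y321.SE2.se_of_transGen (fun _ _ hXY => hXY) h

lemma seZ_of_se {A B : Matrix (Fin 2) (Fin 2) ℕ} (h : SE ℕ A B) : SE ℤ (toZ A) (toZ B) :=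
  Pool.Agent.Y321.SE2.seZ_of_seN h

lemma SE.symm {k : Type} [Semiring k] {n m : ℕ} {A : Matrix (Fin n) (Fin n) k}
    {B : Matrix (Fin m) (Fin m) k} (h : SE k A B) : SE k B A := by
  obtain ⟨l, hl, R, S, e1, e2, e3, e4⟩ := h
  exact ⟨l, hl, S, R, e2, e1, e4.symm, e3.symm⟩

lemma SSE.symm {n m : ℕ} {A : Matrix (Fin n) (Fin n) ℕ} {B : Matrix (Fin m) (Fin m) ℕ}
    (h : SSE A B) : SSE B A := by
  have hs : ∀ {X Y}, Elem X Y → Elem Y X := fun ⟨R, S, h1, h2⟩ => ⟨S, R, h2, h1⟩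
  have key : ∀ {X Y}, Relation.TransGen Elem X Y → Relation.TransGen Elem Y X := by
    intro X Y h
    induction h with
    | single h => exact Relation.TransGen.single (hs h)
    | tail _ h ih => exact Relation.TransGen.head (hs h) ih
  exact key h

/-- A triangular matrix is strong shift equivalent to an upper triangular one. -/
lemma exists_upper (A : Matrix (Fin 2) (Fin 2) ℕ) (h : A 0 1 = 0 ∨ A 1 0 = 0) :
    ∃ A' : Matrix (Fin 2) (Fin 2) ℕ, (∀ i j, A' i j ≠ 0 → i ≤ j) ∧ SSE A A' := by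
  rcases h with h | h
  · refine ⟨!![A 1 1, A 1 0; 0, A 0 0], ?_, ?_⟩
    · intro i j hij
      fin_cases i <;> fin_cases j
      · exact le_rfl
      · simp
      · exact absurd rfl hij
      · exact le_rfl
    · refine Relation.TransGen.single ⟨!![0, A 0 0; A 1 1, A 1 0], !![0, 1; 1, 0], ?_, ?_⟩
      · ext i j
        fin_cases i <;> fin_cases j <;> simp [Matrix.mul_apply, Fin.sum_univ_two, h]
      · ext i j
        fin_cases i <;> fin_cases j <;> simp [Matrix.mul_apply, Fin.sum_univ_two]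
  · refine ⟨A, ?_, Relation.TransGen.single ⟨A, 1, by simp, by simp⟩⟩
    intro i j hij
    fin_cases i <;> fin_cases j
    · exact le_rfl
    · simp
    · exact absurd h hij
    · exact le_rfl

/-- Triangular matrices (by the starting result on components which are full shifts). -/
lemma sse_of_tri {A B : Matrix (Fin 2) (Fin 2) ℕ} (hA : A 0 1 = 0 ∨ A 1 0 = 0)
    (hB : B 0 1 = 0 ∨ B 1 0 = 0) (h : SE ℕ A B) : SSE A B := by
  obtain ⟨A', hA', h1⟩ := exists_upper A hA
  obtain ⟨B', hB', h2⟩ := exists_upper B hB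
  have h3 : SE ℕ A' B' :=
    Pool.Agent.Y321.SE2.se_trans (Pool.Agent.Y321.SE2.se_trans (se_of_sse h1.symm) h)
      (se_of_sse h2)
  obtain ⟨g1, _, _, _, g5⟩ := FullShiftComponentsSSE.result
  have h4 := (g1 A' B' (g5 A' hA') (g5 B' hB')).mpr (by
    obtain ⟨l, hl, R, S, e1, e2, e3, e4⟩ := h3
    exact ⟨l, R, S, hl, e1.symm, e2.symm, e3, e4⟩)
  exact (Relation.TransGen.trans h1 h4).trans h2.symm

/-- **Main theorem.** -/
theorem result :
    -- (1) all `2 × 2` matrices with `500 |det| ≤ tr²`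
    (∀ A B : Matrix (Fin 2) (Fin 2) ℕ, 500 * |(toZ A).det| ≤ (toZ A).trace ^ 2 →
      (SSE A B ↔ SE ℕ A B)) ∧
    -- (2) if `A` and `B` are irreducible: the same as shift equivalence over `ℤ`
    (∀ A B : Matrix (Fin 2) (Fin 2) ℕ, 500 * |(toZ A).det| ≤ (toZ A).trace ^ 2 →
      Pos A → Pos B → (SE ℕ A B ↔ SE ℤ (toZ A) (toZ B))) ∧
    -- (3) integer eigenvalues: every irreducible matrix has a class
    (∀ (A : Matrix (Fin 2) (Fin 2) ℕ) (m y : ℤ), Pos A → (toZ A).trace = y + m →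
      (toZ A).det = y * m → ∃ k, HasClass m y k A) ∧
    -- (4) the arithmetic criterion in terms of the classes
    (∀ (A B : Matrix (Fin 2) (Fin 2) ℕ) (m y a b : ℤ), Pos A → Pos B → m ≠ 0 → |m| ≤ y →
      500 * |y * m| ≤ (y + m) ^ 2 → HasClass m y a A → HasClass m y b B →
      (SSE A B ↔ ∃ (N : ℕ) (r s : ℤ), r ∣ (m * y) ^ N ∧ s ∣ (m * y) ^ N ∧
        (y - m) ∣ r * a - s * b)) := by
  have hirr : ∀ A B : Matrix (Fin 2) (Fin 2) ℕ, 500 * |(toZ A).det| ≤ (toZ A).trace ^ 2 →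
      Pos A → Pos B → SE ℤ (toZ A) (toZ B) → SSE A B := by
    intro A B hq pA pB h
    by_cases h0 : (toZ A).det = 0
    · exact sse_of_Q (Pool.Agent.H33SSE.Q_of_seZ_zero A B h0 h)
    · exact sse_of_Q (Pool.Agent.H33SSE.Q_of_seZ_irr A B pA.1 pA.2 pB.1 pB.2 hq h0 h)
  have hnp : ∀ A : Matrix (Fin 2) (Fin 2) ℕ, ¬ Pos A → (A 0 1 = 0 ∨ A 1 0 = 0) := by
    intro A h
    by_contra hc
    push Not at hc
    exact h ⟨Nat.pos_of_ne_zero hc.1, Nat.pos_of_ne_zero hc.2⟩
  refine ⟨?_, ?_, ?_, ?_⟩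
  · intro A B hq
    refine ⟨se_of_sse, fun h => ?_⟩
    by_cases h0 : (toZ A).det = 0
    · exact sse_of_Q (Pool.Agent.H33SSE.Q_of_seZ_zero A B h0 (seZ_of_se h))
    · by_cases pA : Pos A
      · by_cases pB : Pos B
        · exact hirr A B hq pA pB (seZ_of_se h)
        · obtain ⟨l, hl, R, S, e1, e2, e3, e4⟩ := h
          exact (Pool.Agent.H33SSE.mixed A B pA.1 pA.2 (hnp B pB) h0 l R S e1 e2 e3).elim
      · by_cases pB : Pos B
        · obtain ⟨l, hl, R, S, e1, e2, e3, e4⟩ := h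
          have h1 : (toZ B).det ≠ 0 := by
            intro hB
            have hm : ∀ (X Y : Matrix (Fin 2) (Fin 2) ℕ), toZ (X * Y) = toZ X * toZ Y :=
              fun X Y => Matrix.map_mul (f := Nat.castRingHom ℤ)
            have hp : ∀ (X : Matrix (Fin 2) (Fin 2) ℕ) (j : ℕ), toZ (X ^ j) = (toZ X) ^ j :=
              fun X j => Matrix.map_pow (f := Nat.castRingHom ℤ) X j
            have f1 := congrArg (fun X => (toZ X).det) e1
            have f2 := congrArg (fun X => (toZ X).det) e2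
            simp only [hm, hp, Matrix.det_mul, Matrix.det_pow] at f1 f2
            rw [hB, zero_pow (by omega), mul_comm, ← f1] at f2
            exact pow_ne_zero l h0 f2.symm
          exact (Pool.Agent.H33SSE.mixed B A pB.1 pB.2 (hnp A pA) h1 l S R e2 e1
            e4.symm).elim
        · exact sse_of_tri (hnp A pA) (hnp B pB) h
  · intro A B hq pA pB
    exact ⟨seZ_of_se, fun h => se_of_sse (hirr A B hq pA pB h)⟩
  · intro A m y pA hT hD
    have h1 : 1 ≤ (toZ A) 0 1 := by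
      simp only [Matrix.map_apply]; exact_mod_cast pA.1
    rw [Matrix.trace_fin_two] at hT
    rw [Matrix.det_fin_two] at hD
    obtain ⟨k, hk⟩ := Pool.Agent.H33SSE.exists_tri _ _ _ _ m y h1 hT hD
    rw [← Matrix.eta_fin_two (toZ A)] at hk
    exact ⟨k, hk⟩
  · intro A B m y a b pA pB hm hmy hq hA hB
    have g : ∀ (C : Matrix (Fin 2) (Fin 2) ℕ) (i j : Fin 2), 0 < C i j → 1 ≤ (toZ C) i j := by
      intro C i j h
      simp only [Matrix.map_apply]
      exact_mod_cast h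
    -- traces and determinants
    have htd : ∀ (C : Matrix (Fin 2) (Fin 2) ℕ) (c : ℤ), HasClass m y c C →
        (toZ C).trace = y + m ∧ (toZ C).det = y * m := by
      rintro C c ⟨U, hU, hUC⟩
      obtain ⟨t1, t2⟩ := Pool.Agent.H33SSE.tr_det_of_int hU.ne_zero hUC.symm
      rw [t1, t2]
      constructor
      · simp [Matrix.trace_fin_two]; ring
      · simp [Matrix.det_fin_two]; ring
    obtain ⟨tA, dA⟩ := htd A a hA
    obtain ⟨tB, dB⟩ := htd B b hB
    have hy := Pool.Agent.H33SSE.ratio_bound hm hmy hq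
    have hm1 : 1 ≤ |m| := Int.one_le_abs hm
    have hml := le_abs_self m
    constructor
    · intro h
      obtain ⟨l, hl, R, S, e1, e2, e3, e4⟩ := seZ_of_se (se_of_sse h)
      exact Pool.Agent.H33SSE.crit_of_se m y a b (by
        intro h0
        linarith) dA hA hB R S l e3 e1
    · rintro ⟨N, r, s, hr, hs, hrs⟩
      exact sse_of_Q (Pool.Agent.H33SSE.Q_of_E m y a b (Pool.Agent.H33SSE.NN_toZ A)
        (Pool.Agent.H33SSE.NN_toZ B) (g A 0 1 pA.1) (g A 1 0 pA.2) (g B 0 1 pB.1)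
        (g B 1 0 pB.2) tA dA tB dB hm hy hq hA hB
        (Pool.Agent.H33SSE.E_of_crit hm hy N r s hr hs hrs))

end Pool.Agent.Results.MP_993212_an.AllSmallDet
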