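import Pool.Agent.H73AM.Four

/-!
# MP_993212_an: Ashley's eight by eight problem and small matrices over the full 2-shift

Ashley's matrix is the adjacency matrix of the union of the two permutations `(1 2 3 4 5 6 7 8)` and
`(1)(2)(3 7 4 8 6 5)` on eight vertices. It is shift equivalent to `[2]`; whether it is strong
shift equivalent over `ℕ` to `[2]`, i.e. whether its edge shift is conjugate to the full 2-shift,
is Ashley's eight by eight problem (M. Boyle, Open problems in symbolic dynamics). The answer is
yes: there is a chain of 34 elementary equivalences through matrices of size at most 10.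

More generally, let `A` be an `n × n` matrix over `ℕ` with right and left eigenvectors `u`, `v` over
`ℕ` for the eigenvalue `k`, `v · u ≠ 0`. Shift equivalence of `A` to `[k]` is the finite condition
`(v · u) A ^ n = k ^ n u v`, and then state splitting makes `A` strong shift equivalent to a matrix
with all row and column sums `k`, whose size divides `v · u` and, for a suitable choice of `u` and
`v`, divides `k ^ (n - 1)`. A verified enumeration of the `8 × 8` matrices with row and column sums
`2` (22 up to isomorphism, Ashley's among them) then settles all matrices with `k = 2` and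
`v · u < 16`, in particular all matrices which are shift equivalent to `[2]` with lag at most three,
and all matrices of size at most four which are shift equivalent to `[2]`.
-/

set_option autoImplicit false

namespace Pool.Agent.Results.MP_993212_an.AshleyMatrix

open Pool.Agent.H73AM

/-- (1) Ashley's matrix is strong shift equivalent over `ℕ` to `[2]`. (2) A matrix which is shift
equivalent to `[k]` is strong shift equivalent to a matrix with all row and column sums `k`, of size
dividing `k ^ (n - 1)`. (3) The same with eigenvectors, the criterion for shift equivalence to `[k]`,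
and for `k = 2`, `v · u < 16` the coincidence of strong shift equivalence and shift equivalence to
`[2]`. (4) Shift equivalence to `[2]` implies strong shift equivalence to `[2]` for lag at most `3`
and for size at most `4`. -/
theorem result :
    SSE ashley (full 2) ∧
    (∀ k : ℕ, 1 ≤ k → ∀ (n : ℕ) (A : Matrix (Fin n) (Fin n) ℕ), SE A (full k) →
      ∃ (m : ℕ) (B : Matrix (Fin m) (Fin m) ℕ), 0 < m ∧ m ∣ k ^ (n - 1) ∧ SSE A B ∧
        (∀ i, ∑ j, B i j = k) ∧ (∀ j, ∑ i, B i j = k)) ∧
    (∀ k : ℕ, 1 ≤ k → ∀ (n : ℕ) (A : Matrix (Fin n) (Fin n) ℕ) (u v : Fin n → ℕ),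
      (∀ i, ∑ j, A i j * u j = k * u i) → (∀ j, ∑ i, v i * A i j = k * v j) →
      ∑ i, v i * u i ≠ 0 →
      (SE A (full k) ↔ ∀ i j, (∑ i, v i * u i) * (A ^ n) i j = k ^ n * (u i * v j)) ∧
      (SE A (full k) → ∃ (m : ℕ) (B : Matrix (Fin m) (Fin m) ℕ), 0 < m ∧
        m ∣ ∑ i, v i * u i ∧ SSE A B ∧ (∀ i, ∑ j, B i j = k) ∧ (∀ j, ∑ i, B i j = k)) ∧
      (k = 2 → ∑ i, v i * u i < 16 → (SSE A (full k) ↔ SE A (full k)))) ∧
    (∀ (n l : ℕ) (A : Matrix (Fin n) (Fin n) ℕ), l ≤ 3 → SELag l A (full 2) →
      SSE A (full 2)) ∧
    (∀ (n : ℕ) (A : Matrix (Fin n) (Fin n) ℕ), n ≤ 4 → SE A (full 2) → SSE A (full 2)) := by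
  refine ⟨ashley_sse, ?_, ?_, fun n l A hl h => lag_three hl h, fun n A hn h => size_four hn h⟩
  · intro k hk n A h
    obtain ⟨u, v, hu, hv, h0, hd⟩ := vec_of_se hk h
    obtain ⟨m, B, h1, h2, h3⟩ := reduce k hk A h u v hu hv h0
    exact ⟨m, B, h1, h2.trans hd, h3⟩
  · intro k hk n A u v hu hv h0
    refine ⟨⟨crit_of_se hk hu hv h0, se_of_crit hu hv h0⟩,
      fun h => reduce k hk A h u v hu hv h0, ?_⟩
    rintro rfl h16
    exact ⟨SSE.se, fun h => small h hu hv h0 h16⟩

end Pool.Agent.Results.MP_993212_an.AshleyMatrix
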