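import Pool.Agent.H15L.Ex

/-!
# Strong shift equivalence of reducible matrices is local in the irreducible components

A shift equivalence `(R, S)` between arbitrary square matrices `A`, `B` over `ℤ⁺` matches the
irreducible components of `A` with those of `B` and restricts to shift equivalences between
matched components.  It is realised, up to a power of `A`, by a chain of elementary equivalences
over `ℤ⁺` if and only if its restrictions to the pairs of matched components are.  So `A` and `B`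
are SSE if and only if there is a shift equivalence between them whose diagonal blocks are
realised.  For components all of whose shift equivalences are realised, this gives `SE = SSE`;
examples are the full shifts, the cycles and all `2 × 2` matrices over `ℤ⁺` of determinant `± 1`.
-/

set_option autoImplicit false

namespace Pool.Agent.Results.MP_993212_an.ComponentLocalization

open Matrix

/-- Elementary equivalence of square matrices over `ℕ`: `A = RS`, `B = SR`. -/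
def Elem (X Y : Σ n : ℕ, Matrix (Fin n) (Fin n) ℕ) : Prop :=
  ∃ (R : Matrix (Fin X.1) (Fin Y.1) ℕ) (S : Matrix (Fin Y.1) (Fin X.1) ℕ),
    X.2 = R * S ∧ Y.2 = S * R

/-- Strong shift equivalence over `ℕ` (a finite chain of elementary equivalences). -/
def SSE {n m : ℕ} (A : Matrix (Fin n) (Fin n) ℕ) (B : Matrix (Fin m) (Fin m) ℕ) : Prop :=
  Relation.TransGen Elem ⟨n, A⟩ ⟨m, B⟩

/-- `R, S` is a shift equivalence of lag `l` from `A` to `B`. -/
def IsSE {n m : ℕ} (A : Matrix (Fin n) (Fin n) ℕ) (B : Matrix (Fin m) (Fin m) ℕ)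
    (l : ℕ) (R : Matrix (Fin n) (Fin m) ℕ) (S : Matrix (Fin m) (Fin n) ℕ) : Prop :=
  1 ≤ l ∧ R * S = A ^ l ∧ S * R = B ^ l ∧ A * R = R * B ∧ S * A = B * S

/-- Shift equivalence over `ℕ`. -/
def SE {n m : ℕ} (A : Matrix (Fin n) (Fin n) ℕ) (B : Matrix (Fin m) (Fin m) ℕ) : Prop :=
  ∃ l R S, IsSE A B l R S

/-- `Chain X Y ρ`: a chain of elementary equivalences `X = X₀, …, X_k = Y`, `X_{i-1} = R_i S_i`,
`X_i = S_i R_i`, with `ρ = R₁ ⋯ R_k`. -/
inductive Chain : (X Y : Σ n : ℕ, Matrix (Fin n) (Fin n) ℕ) → Matrix (Fin X.1) (Fin Y.1) ℕ → Prop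
  | refl (X : Σ n : ℕ, Matrix (Fin n) (Fin n) ℕ) : Chain X X 1
  | step (X Y Z : Σ n : ℕ, Matrix (Fin n) (Fin n) ℕ) (R : Matrix (Fin X.1) (Fin Y.1) ℕ)
      (S : Matrix (Fin Y.1) (Fin X.1) ℕ) (ρ : Matrix (Fin Y.1) (Fin Z.1) ℕ)
      (h1 : X.2 = R * S) (h2 : Y.2 = S * R) (h : Chain Y Z ρ) : Chain X Z (R * ρ)

/-- `R` is realised: for some `t` the matrix `A^t R` is the total product `R₁ ⋯ R_k` of a chain of
elementary equivalences from `A` to `B`. -/
def Realised {n m : ℕ} (A : Matrix (Fin n) (Fin n) ℕ) (B : Matrix (Fin m) (Fin m) ℕ)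
    (R : Matrix (Fin n) (Fin m) ℕ) : Prop :=
  ∃ t, Chain ⟨n, A⟩ ⟨m, B⟩ (A ^ t * R)

/-- `f` enumerates the component of the state `i`: the states `j` which can be reached from `i`
and from which `i` can be reached. -/
def IsComp {n k : ℕ} (A : Matrix (Fin n) (Fin n) ℕ) (i : Fin n) (f : Fin k → Fin n) : Prop :=
  Function.Injective f ∧ ∀ j, j ∈ Set.range f ↔ (∃ p, (A ^ p) i j ≠ 0) ∧ ∃ p, (A ^ p) j i ≠ 0

/-- The state `i` lies on a closed path of positive length. -/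
def Closed {n : ℕ} (A : Matrix (Fin n) (Fin n) ℕ) (i : Fin n) : Prop :=
  ∃ p, 1 ≤ p ∧ (A ^ p) i i ≠ 0

/-- The state `i` of `A` and the state `j` of `B` are matched by `(R, S)`: some entry `(i, j)` of a
matrix `A^p R` and some entry `(j, i)` of a matrix `B^p S` are positive. -/
def Matched {n m : ℕ} (A : Matrix (Fin n) (Fin n) ℕ) (B : Matrix (Fin m) (Fin m) ℕ)
    (R : Matrix (Fin n) (Fin m) ℕ) (S : Matrix (Fin m) (Fin n) ℕ) (i : Fin n) (j : Fin m) : Prop :=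
  (∃ p : ℕ, (A ^ p * R : Matrix (Fin n) (Fin m) ℕ) i j ≠ 0) ∧
    ∃ p : ℕ, (B ^ p * S : Matrix (Fin m) (Fin n) ℕ) j i ≠ 0

/-- The restrictions of `R` to all pairs of matched components are realised. -/
def LocallyRealised {n m : ℕ} (A : Matrix (Fin n) (Fin n) ℕ) (B : Matrix (Fin m) (Fin m) ℕ)
    (R : Matrix (Fin n) (Fin m) ℕ) (S : Matrix (Fin m) (Fin n) ℕ) : Prop :=
  ∀ i j, Matched A B R S i j → ∀ (k k' : ℕ) (f : Fin k → Fin n) (g : Fin k' → Fin m),
    IsComp A i f → IsComp B j g →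
      Realised (A.submatrix f f) (B.submatrix g g) (R.submatrix f g)

/-- All shift equivalences from `A` to `B` are realised. -/
def AllRealised {n m : ℕ} (A : Matrix (Fin n) (Fin n) ℕ) (B : Matrix (Fin m) (Fin m) ℕ) : Prop :=
  ∀ l R S, IsSE A B l R S → Realised A B R

/-- The `1 × 1` matrix `[m]` (the full `m`-shift). -/
def full (m : ℕ) : Matrix (Fin 1) (Fin 1) ℕ := fun _ _ => m

/-- The cyclic `m × m` permutation matrix (one periodic orbit). -/
def cyc (m : ℕ) : Matrix (Fin m) (Fin m) ℕ := fun i j => if j = finRotate m i then 1 else 0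

/-- `A` is SSE to some `[m]`, to a cyclic permutation matrix or to a `2 × 2` matrix over `ℕ` of
determinant `1` or `-1`. -/
def Basic {n : ℕ} (A : Matrix (Fin n) (Fin n) ℕ) : Prop :=
  (∃ m, SSE A (full m)) ∨ (∃ m, SSE A (cyc m)) ∨
    ∃ a b c d : ℕ, (a * d = b * c + 1 ∨ b * c = a * d + 1) ∧ SSE A !![a, b; c, d]

/-- Every component of `A` (of a state on a closed path) is basic. -/
def BasicComponents {n : ℕ} (A : Matrix (Fin n) (Fin n) ℕ) : Prop :=
  ∀ i, Closed A i → ∃ (k : ℕ) (f : Fin k → Fin n), IsComp A i f ∧ Basic (A.submatrix f f)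

/-! ### Translation -/

open Pool.Agent.H15L

theorem chain_of_ch {X Y : H812R2.SSE.Obj} {ρ : Matrix X.ι Y.ι ℕ} (h : H812R2.SSE.CH X Y ρ) :
    ∀ {n m : ℕ} (e : X.ι ≃ Fin n) (f : Y.ι ≃ Fin m),
      Chain ⟨n, X.M.submatrix e.symm e.symm⟩ ⟨m, Y.M.submatrix f.symm f.symm⟩
        (ρ.submatrix e.symm f.symm) := by
  induction h with
  | refl X =>
    intro n m e f
    have h := Chain.step ⟨n, X.M.submatrix e.symm e.symm⟩ ⟨m, X.M.submatrix f.symm f.symm⟩ _
      ((1 : Matrix X.ι X.ι ℕ).submatrix e.symm f.symm) (X.M.submatrix f.symm e.symm) 1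
      (by rw [Matrix.submatrix_mul_equiv, Matrix.one_mul])
      (by rw [Matrix.submatrix_mul_equiv, Matrix.mul_one]) (Chain.refl _)
    rwa [Matrix.mul_one] at h
  | step X Y Z R S ρ h1 h2 _ ih =>
    intro n m e f
    have h := Chain.step ⟨n, X.M.submatrix e.symm e.symm⟩
      ⟨_, Y.M.submatrix (Fintype.equivFin Y.ι).symm (Fintype.equivFin Y.ι).symm⟩ _
      (R.submatrix e.symm (Fintype.equivFin Y.ι).symm) (S.submatrix (Fintype.equivFin Y.ι).symm e.symm)
      _ (by rw [Matrix.submatrix_mul_equiv, ← h1]) (by rw [Matrix.submatrix_mul_equiv, ← h2])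
      (ih (Fintype.equivFin Y.ι) f)
    rwa [Matrix.submatrix_mul_equiv] at h

theorem ch_of_chain {X Y : Σ n : ℕ, Matrix (Fin n) (Fin n) ℕ} {ρ : Matrix (Fin X.1) (Fin Y.1) ℕ}
    (h : Chain X Y ρ) : H812R2.SSE.CH ⟨Fin X.1, X.2⟩ ⟨Fin Y.1, Y.2⟩ ρ := by
  induction h with
  | refl X => exact H812R2.SSE.CH.refl _
  | step X Y Z R S ρ h1 h2 _ ih =>
    exact H812R2.SSE.CH.step ⟨Fin X.1, X.2⟩ ⟨Fin Y.1, Y.2⟩ ⟨Fin Z.1, Z.2⟩ R S ρ h1 h2 ih

theorem chain_iff {n m : ℕ} (A : Matrix (Fin n) (Fin n) ℕ) (B : Matrix (Fin m) (Fin m) ℕ)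
    (ρ : Matrix (Fin n) (Fin m) ℕ) :
    Chain ⟨n, A⟩ ⟨m, B⟩ ρ ↔ H812R2.SSE.CH ⟨Fin n, A⟩ ⟨Fin m, B⟩ ρ :=
  ⟨fun h => ch_of_chain h, fun h => chain_of_ch h (Equiv.refl _) (Equiv.refl _)⟩

theorem ch_of_transGen {X Y : Σ n : ℕ, Matrix (Fin n) (Fin n) ℕ}
    (h : Relation.TransGen Elem X Y) :
    ∃ ρ, H812R2.SSE.CH ⟨Fin X.1, X.2⟩ ⟨Fin Y.1, Y.2⟩ ρ := by
  have h1 : ∀ X Y, Elem X Y → ∃ ρ, H812R2.SSE.CH ⟨Fin X.1, X.2⟩ ⟨Fin Y.1, Y.2⟩ ρ := by
    rintro X Y ⟨R, S, h1, h2⟩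
    exact ⟨R, H812R2.SSE.CH.single (X := ⟨Fin X.1, X.2⟩) (Y := ⟨Fin Y.1, Y.2⟩) R S h1 h2⟩
  induction h with
  | single h => exact h1 _ _ h
  | tail _ h ih =>
    obtain ⟨ρ, c⟩ := ih
    obtain ⟨ρ', c'⟩ := h1 _ _ h
    exact ⟨_, c.trans c'⟩

theorem sse_iff {n m : ℕ} (A : Matrix (Fin n) (Fin n) ℕ) (B : Matrix (Fin m) (Fin m) ℕ) :
    SSE A B ↔ ∃ ρ, H812R2.SSE.CH ⟨Fin n, A⟩ ⟨Fin m, B⟩ ρ :=
  ⟨fun h => ch_of_transGen h, fun ⟨_, h⟩ => H812R2.SSE.transGen_of_ch h⟩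

theorem sem_iff {n m : ℕ} (A : Matrix (Fin n) (Fin n) ℕ) (B : Matrix (Fin m) (Fin m) ℕ) (l : ℕ)
    (R : Matrix (Fin n) (Fin m) ℕ) (S : Matrix (Fin m) (Fin n) ℕ) :
    IsSE A B l R S ↔ SEm ⟨Fin n, A⟩ ⟨Fin m, B⟩ l R S :=
  ⟨fun h => ⟨h.1, h.2.1, h.2.2.1, h.2.2.2.1, h.2.2.2.2⟩, fun h => ⟨h.hl, h.m1, h.m2, h.c1, h.c2⟩⟩

/-- the component as an object -/
noncomputable def eqvComp {n k : ℕ} {A : Matrix (Fin n) (Fin n) ℕ} {i : Fin n} {f : Fin k → Fin n}
    (h : IsComp A i f) : Eqv ⟨Fin k, A.submatrix f f⟩ (H812R2.SSE.compO A i) where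
  e := (Equiv.ofBijective (fun a => (⟨f a, (h.2 (f a)).1 ⟨a, rfl⟩⟩ : {j // H812R2.SSE.Mut A i j}))
      ⟨fun a b hab => h.1 (congrArg Subtype.val hab), fun j => by
        obtain ⟨a, ha⟩ := (h.2 j.1).2 j.2
        exact ⟨a, Subtype.ext ha⟩⟩ : Fin k ≃ {j // H812R2.SSE.Mut A i j})
  h := fun _ _ => rfl

theorem exists_comp {n : ℕ} (A : Matrix (Fin n) (Fin n) ℕ) (i : Fin n) :
    ∃ (k : ℕ) (f : Fin k → Fin n), IsComp A i f := by
  classical
  refine ⟨Fintype.card {j // H812R2.SSE.Mut A i j},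
    fun a => ((Fintype.equivFin {j // H812R2.SSE.Mut A i j}).symm a).1, ?_, ?_⟩
  · intro a b hab
    exact (Fintype.equivFin _).symm.injective (Subtype.ext hab)
  · intro j
    constructor
    · rintro ⟨a, rfl⟩
      exact ((Fintype.equivFin {j // H812R2.SSE.Mut A i j}).symm a).2
    · intro hj
      exact ⟨Fintype.equivFin _ ⟨j, hj⟩, by simp⟩

theorem loc_iff {n m k k' : ℕ} {A : Matrix (Fin n) (Fin n) ℕ} {B : Matrix (Fin m) (Fin m) ℕ}
    {R : Matrix (Fin n) (Fin m) ℕ} {i : Fin n} {j : Fin m} {f : Fin k → Fin n}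
    {g : Fin k' → Fin m} (hf : IsComp A i f) (hg : IsComp B j g) :
    Realised (A.submatrix f f) (B.submatrix g g) (R.submatrix f g) ↔
      ∃ t, H812R2.SSE.CH (H812R2.SSE.compO A i) (H812R2.SSE.compO B j)
        ((H812R2.SSE.compO A i).M ^ t * cm (X := ⟨Fin n, A⟩) (Y := ⟨Fin m, B⟩) R i j) := by
  constructor
  · rintro ⟨t, ht⟩
    refine ⟨t, ?_⟩
    have ht' := (chain_iff _ _ _).1 ht
    let E := eqvComp hf
    let F := eqvComp hg
    refine Eqv.transportR (X := H812R2.SSE.compO A i) (Y := H812R2.SSE.compO B j)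
      (X' := ⟨Fin k, A.submatrix f f⟩) (Y' := ⟨Fin k', B.submatrix g g⟩) ⟨E.e.symm, ?_⟩
      ⟨F.e.symm, ?_⟩ ?_ ht'
    · intro a b
      have := E.h (E.e.symm a) (E.e.symm b)
      rw [Equiv.apply_symm_apply, Equiv.apply_symm_apply] at this
      exact this.symm
    · intro a b
      have := F.h (F.e.symm a) (F.e.symm b)
      rw [Equiv.apply_symm_apply, Equiv.apply_symm_apply] at this
      exact this.symm
    · intro a b
      obtain ⟨a', rfl⟩ := E.e.surjective a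
      obtain ⟨b', rfl⟩ := F.e.surjective b
      change R.submatrix f g (E.e.symm (E.e a')) (F.e.symm (F.e b')) = _
      rw [Equiv.symm_apply_apply, Equiv.symm_apply_apply]
      rfl
  · rintro ⟨t, ht⟩
    refine ⟨t, (chain_iff _ _ _).2 ?_⟩
    exact Eqv.transportR (X := ⟨Fin k, A.submatrix f f⟩) (Y := ⟨Fin k', B.submatrix g g⟩)
      (eqvComp hf) (eqvComp hg) (fun _ _ => rfl) ht

theorem sem_comp {n m k k' : ℕ} {A : Matrix (Fin n) (Fin n) ℕ} {B : Matrix (Fin m) (Fin m) ℕ}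
    {l : ℕ} {R : Matrix (Fin n) (Fin m) ℕ} {S : Matrix (Fin m) (Fin n) ℕ} {i : Fin n} {j : Fin m}
    {f : Fin k → Fin n} {g : Fin k' → Fin m} (hf : IsComp A i f) (hg : IsComp B j g)
    (h : SEm (H812R2.SSE.compO A i) (H812R2.SSE.compO B j) l
        (cm (X := ⟨Fin n, A⟩) (Y := ⟨Fin m, B⟩) R i j)
        (cm (X := ⟨Fin m, B⟩) (Y := ⟨Fin n, A⟩) S j i)) :
    IsSE (A.submatrix f f) (B.submatrix g g) l (R.submatrix f g) (S.submatrix g f) :=
  (sem_iff _ _ _ _ _).2 (SEm.transport (X := ⟨Fin k, A.submatrix f f⟩)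
    (Y := ⟨Fin k', B.submatrix g g⟩) (eqvComp hf) (eqvComp hg) (fun _ _ => rfl) (fun _ _ => rfl) h)

theorem sem_comp' {n m k k' : ℕ} {A : Matrix (Fin n) (Fin n) ℕ} {B : Matrix (Fin m) (Fin m) ℕ}
    {i : Fin n} {j : Fin m}
    {f : Fin k → Fin n} {g : Fin k' → Fin m} (hf : IsComp A i f) (hg : IsComp B j g)
    (h : AllRealised (A.submatrix f f) (B.submatrix g g)) :
    AllR (H812R2.SSE.compO A i) (H812R2.SSE.compO B j) := by
  have h0 : AllR ⟨Fin k, A.submatrix f f⟩ ⟨Fin k', B.submatrix g g⟩ := by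
    intro l R S hs
    obtain ⟨t, ht⟩ := h l R S ((sem_iff _ _ _ _ _).2 hs)
    exact ⟨t, (chain_iff _ _ _).1 ht⟩
  exact AllR.transport (eqvComp hf).symm.ch (eqvComp hg).symm.ch h0

theorem allRealised_of {n m : ℕ} {A : Matrix (Fin n) (Fin n) ℕ} {B : Matrix (Fin m) (Fin m) ℕ}
    (h : AllR ⟨Fin n, A⟩ ⟨Fin m, B⟩) : AllRealised A B ∧ (SSE A B ↔ SE A B) := by
  have h1 : AllRealised A B := by
    intro l R S hs
    obtain ⟨t, ht⟩ := h l R S ((sem_iff _ _ _ _ _).1 hs)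
    exact ⟨t, (chain_iff _ _ _).2 ht⟩
  refine ⟨h1, fun hs => ?_, ?_⟩
  · obtain ⟨ρ, c⟩ := (sse_iff A B).1 hs
    obtain ⟨l, T, hT, -⟩ := CH.partner c
    exact ⟨l, ρ, T, (sem_iff _ _ _ _ _).2 hT⟩
  · rintro ⟨l, R, S, hs⟩
    obtain ⟨t, ht⟩ := h1 l R S hs
    exact (sse_iff A B).2 ⟨_, (chain_iff _ _ _).1 ht⟩

theorem local_iff {n m : ℕ} (A : Matrix (Fin n) (Fin n) ℕ) (B : Matrix (Fin m) (Fin m) ℕ) (l : ℕ)
    (R : Matrix (Fin n) (Fin m) ℕ) (S : Matrix (Fin m) (Fin n) ℕ) (h : IsSE A B l R S) :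
    Realised A B R ↔ LocallyRealised A B R S := by
  have hs := (sem_iff _ _ _ _ _).1 h
  constructor
  · rintro ⟨t, ht⟩ i j hij k k' f g hf hg
    rw [loc_iff hf hg]
    exact ⟨t, local_of_realise hs ((chain_iff _ _ _).1 ht) i j hij.1 hij.2⟩
  · intro hl
    obtain ⟨t, ht⟩ := realise hs (fun i j h1 h2 => by
      obtain ⟨k, f, hf⟩ := exists_comp A i
      obtain ⟨k', g, hg⟩ := exists_comp B j
      exact (loc_iff hf hg).1 (hl i j ⟨h1, h2⟩ k k' f g hf hg))
    exact ⟨t, (chain_iff _ _ _).2 ht⟩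

theorem bas_of_basic {n : ℕ} {A : Matrix (Fin n) (Fin n) ℕ} (h : Basic A) :
    ∃ (C : H812R2.SSE.Obj) (ρ : Matrix (Fin n) C.ι ℕ), Bas C ∧ H812R2.SSE.CH ⟨Fin n, A⟩ C ρ := by
  rcases h with ⟨m, h⟩ | ⟨m, h⟩ | ⟨a, b, c, d, hd, h⟩
  · obtain ⟨ρ, c⟩ := (sse_iff _ _).1 h
    exact ⟨_, ρ, Bas.full m, c⟩
  · obtain ⟨ρ, c⟩ := (sse_iff _ _).1 h
    exact ⟨_, ρ, Bas.cyc m, c⟩
  · obtain ⟨ρ, c0⟩ := (sse_iff _ _).1 h
    refine ⟨_, ρ, Bas.um _ ?_, c0⟩
    unfold Um
    rw [Matrix.det_fin_two]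
    change (a : ℤ) * d - b * c = 1 ∨ (a : ℤ) * d - b * c = -1
    rcases hd with hd | hd
    · left
      have h' : (a : ℤ) * d = b * c + 1 := by exact_mod_cast hd
      rw [h']; ring
    · right
      have h' : (b : ℤ) * c = a * d + 1 := by exact_mod_cast hd
      rw [h']; ring

/-- **Main theorem.** Let `(R, S)` be a shift equivalence over `ℤ⁺` of lag `l` between arbitrary
square matrices `A`, `B` over `ℤ⁺`.
(1) `(R, S)` matches the components of `A` with those of `B`, and the restrictions of `R` and `S`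
to a pair of matched components form a shift equivalence of the same lag between them.
(2) **Localization.** `R` is realised (up to a power of `A`, by a chain of elementary equivalences
over `ℤ⁺`) if and only if its restrictions to all pairs of matched components are realised.
(3) `A` and `B` are strong shift equivalent if and only if there is a shift equivalence between
them whose restrictions to all pairs of matched components are realised.
(4) If all shift equivalences between components of `A` and components of `B` are realised, then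
all shift equivalences between `A` and `B` are realised, and SSE and SE coincide for `A`, `B`.
(5) This holds if each component of `A` and of `B` is SSE to a full shift `[m]`, to a cyclic
permutation matrix or to a `2 × 2` matrix over `ℤ⁺` of determinant `± 1`. -/
theorem result :
    (∀ {n m : ℕ} (A : Matrix (Fin n) (Fin n) ℕ) (B : Matrix (Fin m) (Fin m) ℕ) (l : ℕ)
      (R : Matrix (Fin n) (Fin m) ℕ) (S : Matrix (Fin m) (Fin n) ℕ), IsSE A B l R S →
      (∀ i, Closed A i ↔ ∃ j, Matched A B R S i j) ∧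
      ∀ i j, Matched A B R S i j → ∀ (k k' : ℕ) (f : Fin k → Fin n) (g : Fin k' → Fin m),
        IsComp A i f → IsComp B j g →
          (∀ j', Matched A B R S i j' ↔ j' ∈ Set.range g) ∧
          IsSE (A.submatrix f f) (B.submatrix g g) l (R.submatrix f g) (S.submatrix g f)) ∧
    (∀ {n m : ℕ} (A : Matrix (Fin n) (Fin n) ℕ) (B : Matrix (Fin m) (Fin m) ℕ) (l : ℕ)
      (R : Matrix (Fin n) (Fin m) ℕ) (S : Matrix (Fin m) (Fin n) ℕ), IsSE A B l R S →
      (Realised A B R ↔ LocallyRealised A B R S)) ∧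
    (∀ {n m : ℕ} (A : Matrix (Fin n) (Fin n) ℕ) (B : Matrix (Fin m) (Fin m) ℕ),
      SSE A B ↔ ∃ l R S, IsSE A B l R S ∧ LocallyRealised A B R S) ∧
    (∀ {n m : ℕ} (A : Matrix (Fin n) (Fin n) ℕ) (B : Matrix (Fin m) (Fin m) ℕ),
      (∀ i j, Closed A i → Closed B j → ∀ (k k' : ℕ) (f : Fin k → Fin n) (g : Fin k' → Fin m),
        IsComp A i f → IsComp B j g → AllRealised (A.submatrix f f) (B.submatrix g g)) →
      AllRealised A B ∧ (SSE A B ↔ SE A B)) ∧
    (∀ {n m : ℕ} (A : Matrix (Fin n) (Fin n) ℕ) (B : Matrix (Fin m) (Fin m) ℕ),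
      BasicComponents A → BasicComponents B → AllRealised A B ∧ (SSE A B ↔ SE A B)) := by
  refine ⟨?_, fun A B l R S h => local_iff A B l R S h, ?_, ?_, ?_⟩
  · intro n m A B l R S h
    have hs := (sem_iff _ _ _ _ _).1 h
    refine ⟨fun i => ⟨?_, ?_⟩, ?_⟩
    · rintro ⟨p, hp, hi⟩
      have h3 := pow_mul_ne hi l
      have h4 : l ≤ p * l := Nat.le_mul_of_pos_left _ hp
      have e : A ^ (p * l) = A ^ (p * l - l) * R * S := by
        rw [Matrix.mul_assoc, h.2.1, ← pow_add]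
        congr 1
        omega
      rw [e] at h3
      obtain ⟨j, h5, h6⟩ := ex_mul h3
      exact ⟨j, ⟨_, h5⟩, 0, by rw [pow_zero, Matrix.one_mul]; exact h6⟩
    · rintro ⟨j, hj⟩
      exact closed hs hj.1 hj.2
    · intro i j hij k k' f g hf hg
      refine ⟨fun j' => ?_, sem_comp hf hg (hs.block hij.1 hij.2)⟩
      rw [hg.2]
      constructor
      · intro hj'
        exact ⟨Lk.loop hs.symm hij.2 hj'.1, Lk.loop hs.symm hj'.2 hij.1⟩
      · intro hj'
        exact ⟨Lk.right hs hij.1 hj'.1, Lk.left (X := ⟨Fin m, B⟩) (Y := ⟨Fin n, A⟩) (R := S) hj'.2 hij.2⟩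
  · intro n m A B
    constructor
    · intro hs
      obtain ⟨ρ, c⟩ := (sse_iff A B).1 hs
      obtain ⟨l, T, hT, -⟩ := CH.partner c
      have hT' := (sem_iff _ _ _ _ _).2 hT
      refine ⟨l, ρ, T, hT', (local_iff A B l ρ T hT').1 ⟨0, ?_⟩⟩
      rw [pow_zero, Matrix.one_mul]
      exact (chain_iff _ _ _).2 c
    · rintro ⟨l, R, S, hs, hl⟩
      obtain ⟨t, ht⟩ := (local_iff A B l R S hs).2 hl
      exact (sse_iff A B).2 ⟨_, (chain_iff _ _ _).1 ht⟩
  · intro n m A B h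
    refine allRealised_of (allR_of_components (X := ⟨Fin n, A⟩) (Y := ⟨Fin m, B⟩) ?_)
    intro i j hi hj
    obtain ⟨k, f, hf⟩ := exists_comp A i
    obtain ⟨k', g, hg⟩ := exists_comp B j
    exact sem_comp' hf hg (h i j hi hj k k' f g hf hg)
  · intro n m A B hA hB
    refine allRealised_of (allR_of_components (X := ⟨Fin n, A⟩) (Y := ⟨Fin m, B⟩) ?_)
    intro i j hi hj
    obtain ⟨k, f, hf, bf⟩ := hA i hi
    obtain ⟨k', g, hg, bg⟩ := hB j hj
    obtain ⟨C, ρ, bC, cC⟩ := bas_of_basic bf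
    obtain ⟨C', ρ', bC', cC'⟩ := bas_of_basic bg
    exact AllR.transport ((eqvComp hf).symm.ch.trans cC) ((eqvComp hg).symm.ch.trans cC')
      (bC.allR bC')

end Pool.Agent.Results.MP_993212_an.ComponentLocalization
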