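import Pool.Agent.H73LP.PolyZ
import Pool.Agent.H73LP.LargeM

/-!
# MP_993212_an: shift equivalences become strong shift equivalences after large perturbations

`Chain A B P` says that there are matrices over `ℕ` with `A = R₁ S₁`, `S₁ R₁ = R₂ S₂`, …,
`S_k R_k = B` and `P = R₁ ⋯ R_k`; so `A` and `B` are strong shift equivalent over `ℕ`.
`Realised A B S` says that for some such chain `B ^ c S P = B ^ a` for some `a`, `c`: the strong
shift equivalence induces the same isomorphism of dimension triples as `S`, up to a power of the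
shift. `SSE` is strong shift equivalence over `ℕ`, `SE` is shift equivalence over `ℕ`, and `toZ`
regards a matrix over `ℕ` as a matrix over `ℤ`.

Let `(R, S)` be a shift equivalence over `ℤ` of lag `l` from `A` to `B`, where `S` is nonnegative
without zero rows and zero columns. Then `A + W S` and `B + S W` are nonnegative and strong shift
equivalent over `ℕ`, and `S` is realised, for all matrices `W` over `ℕ` whose entries are at least a
bound `K` which depends only on the sizes, the lag and a bound for the entries of `A`, `B`, `R`, `S`.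

Consequence: if `A` and `B` are shift equivalent over `ℕ` and primitive, not `[1]`, and `f` is an
integer polynomial with `f(0) = 0`, then `f(A) + A ^ j` and `f(B) + B ^ j` are strong shift
equivalent over `ℕ` for all large `j`; for `f = 0` this is a theorem of Williams. For `A = B` it
says that every automorphism of the dimension triple of `A` is in the range of the dimension
representation of `f(A) + A ^ j` for all large `j`.

The proof is an induction on the lag. The basic move is the elimination of a vector `x` in the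
kernel of the intertwining matrix: if `D x = 0`, `y x = 0`, `y ≥ 0` and `D - x y ≥ 0`, then `D` and
`D - x y` are strong shift equivalent. It shows that the class of `C + U Z` (`Z` a nonnegative
matrix, `Z C = B Z`, `C` nilpotent on the kernel of `Z`, `U` large) depends only on `Z` and `Z U`.
-/

set_option autoImplicit false

namespace Pool.Agent.Results.MP_993212_an.StableShiftEquivalence

open Pool.Agent.H73AM Pool.Agent.H73LP Polynomial

/-- (1) A shift equivalence is realised by a strong shift equivalence after a large perturbation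
along it. (2) Polynomials in shift equivalent matrices. (3) Primitive matrices. (4) The same without
reference to a particular shift equivalence. (5) Removal of a nilpotent integer matrix `N` from
`N + Q P`, where `P N = 0` and `Q` is large. -/
theorem result :
    (∀ n m l M : ℕ, 1 ≤ l → ∃ K : ℕ, ∀ (A : Matrix (Fin n) (Fin n) ℤ)
      (B : Matrix (Fin m) (Fin m) ℤ) (R : Matrix (Fin n) (Fin m) ℤ)
      (S : Matrix (Fin m) (Fin n) ℕ) (W : Matrix (Fin n) (Fin m) ℕ),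
      (∀ i j, |A i j| ≤ M) → (∀ i j, |B i j| ≤ M) → (∀ i j, |R i j| ≤ M) → (∀ i j, S i j ≤ M) →
      A ^ l = R * toZ S → B ^ l = toZ S * R → toZ S * A = B * toZ S →
      (∀ j, ∃ i, S i j ≠ 0) → (∀ i, ∃ j, S i j ≠ 0) → (∀ i j, K ≤ W i j) →
      ∃ (A' : Matrix (Fin n) (Fin n) ℕ) (B' : Matrix (Fin m) (Fin m) ℕ),
        toZ A' = A + toZ (W * S) ∧ toZ B' = B + toZ (S * W) ∧ SSE A' B' ∧ Realised A' B' S) ∧
    (∀ (n m l : ℕ) (A : Matrix (Fin n) (Fin n) ℕ) (B : Matrix (Fin m) (Fin m) ℕ)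
      (R : Matrix (Fin n) (Fin m) ℕ) (S : Matrix (Fin m) (Fin n) ℕ), 1 ≤ l →
      A ^ l = R * S → B ^ l = S * R → S * A = B * S →
      (∀ j, ∃ i, A i j ≠ 0) → (∀ i, ∃ j, B i j ≠ 0) → ∀ f : ℤ[X], X ∣ f →
      ∃ K : ℕ, ∀ q : ℕ[X], (∀ i j, K ≤ (R * aeval B q) i j) →
      ∃ (A' : Matrix (Fin n) (Fin n) ℕ) (B' : Matrix (Fin m) (Fin m) ℕ),
        toZ A' = aeval (toZ A) f + toZ (A ^ l * aeval A q) ∧
        toZ B' = aeval (toZ B) f + toZ (B ^ l * aeval B q) ∧ SSE A' B' ∧ Realised A' B' S) ∧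
    (∀ (n m l : ℕ) (A : Matrix (Fin n) (Fin n) ℕ) (B : Matrix (Fin m) (Fin m) ℕ)
      (R : Matrix (Fin n) (Fin m) ℕ) (S : Matrix (Fin m) (Fin n) ℕ), 1 ≤ l →
      A ^ l = R * S → B ^ l = S * R → S * A = B * S →
      (∃ s, ∀ i j, 2 ≤ (A ^ s) i j) → (∃ s, ∀ i j, 2 ≤ (B ^ s) i j) → ∀ f : ℤ[X], X ∣ f →
      ∃ l₀ : ℕ, ∀ g : ℕ[X], g ≠ 0 → X ^ l₀ ∣ g →
      ∃ (A' : Matrix (Fin n) (Fin n) ℕ) (B' : Matrix (Fin m) (Fin m) ℕ),
        toZ A' = aeval (toZ A) f + toZ (aeval A g) ∧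
        toZ B' = aeval (toZ B) f + toZ (aeval B g) ∧ SSE A' B' ∧ Realised A' B' S) ∧
    (∀ (n m : ℕ) (A : Matrix (Fin n) (Fin n) ℕ) (B : Matrix (Fin m) (Fin m) ℕ), SE A B →
      (∃ s, ∀ i j, 2 ≤ (A ^ s) i j) → (∃ s, ∀ i j, 2 ≤ (B ^ s) i j) →
      (∃ l₀ : ℕ, ∀ j, l₀ ≤ j → SSE (A + A ^ j) (B + B ^ j)) ∧
      ∀ f : ℤ[X], X ∣ f → ∃ l₀ : ℕ, ∀ j, l₀ ≤ j →
      ∃ (A' : Matrix (Fin n) (Fin n) ℕ) (B' : Matrix (Fin m) (Fin m) ℕ),
        toZ A' = aeval (toZ A) f + toZ (A ^ j) ∧ toZ B' = aeval (toZ B) f + toZ (B ^ j) ∧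
        SSE A' B') ∧
    (∀ n M : ℕ, ∃ K : ℕ, ∀ (N : Matrix (Fin n) (Fin n) ℤ) (r : ℕ)
      (P : Matrix (Fin r) (Fin n) ℕ) (Q : Matrix (Fin n) (Fin r) ℕ),
      (∀ i j, |N i j| ≤ M) → IsNilpotent N → (∀ j, ∃ a, P a j ≠ 0) →
      (∀ a j, ∑ i, (P a i : ℤ) * N i j = 0) → (∀ i a, K ≤ Q i a) →
      ∃ A : Matrix (Fin n) (Fin n) ℕ, (∀ i j, (A i j : ℤ) = N i j + ((Q * P) i j : ℕ)) ∧
        SSE A (P * Q)) := by
  refine ⟨fun n m l M hl => ?_, ?_, ?_, ?_, fun n M => H73LP.uniformM n M⟩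
  · obtain ⟨K, hK⟩ := mainZ_uniform n m l M hl
    refine ⟨K, fun A B R S W h1 h2 h3 h4 h5 h6 h7 h8 h9 h10 => ?_⟩
    obtain ⟨A', B', hA', hB', hr⟩ := hK A B R S W h1 h2 h3 h4 h5 h6 h7 h8 h9 h10
    exact ⟨A', B', hA', hB', by obtain ⟨P, hP, _⟩ := hr; exact hP.sse, hr⟩
  · intro n m l A B R S hl h1 h2 h3 hA hB f hf
    obtain ⟨K, hK⟩ := polyZ hl R S h1 h2 h3 hA hB f hf
    refine ⟨K, fun q hq => ?_⟩
    obtain ⟨A', B', hA', hB', hr⟩ := hK q hq
    refine ⟨A', B', ?_, ?_, by obtain ⟨P, hP, _⟩ := hr; exact hP.sse, hr⟩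
    · rw [hA', map_add, ← toZ_aeval, map_mul, map_pow, aeval_X]
    · rw [hB', map_add, ← toZ_aeval, map_mul, map_pow, aeval_X]
  · intro n m l A B R S hl h1 h2 h3 hA hB f hf
    obtain ⟨l₀, h₀⟩ := polyZ_prim hl R S h1 h2 h3 hA hB f hf
    refine ⟨l₀, fun g hg hlg => ?_⟩
    obtain ⟨A', B', hA', hB', hr⟩ := h₀ g hg hlg
    refine ⟨A', B', ?_, ?_, by obtain ⟨P, hP, _⟩ := hr; exact hP.sse, hr⟩
    · rw [hA', map_add, ← toZ_aeval]
    · rw [hB', map_add, ← toZ_aeval]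
  · intro n m A B h hA hB
    refine ⟨H73LP.add_pow h hA hB, fun f hf => ?_⟩
    obtain ⟨l, R, S, hl, h1, h2, -, h4⟩ := h
    obtain ⟨l₀, h₀⟩ := polyZ_prim hl R S h1 h2 h4 hA hB f hf
    refine ⟨l₀, fun j hj => ?_⟩
    obtain ⟨A', B', hA', hB', hr⟩ := h₀ (X ^ j) (pow_ne_zero _ X_ne_zero) (pow_dvd_pow X hj)
    refine ⟨A', B', ?_, ?_, by obtain ⟨P, hP, _⟩ := hr; exact hP.sse⟩
    · rw [hA', map_add, ← toZ_aeval, map_pow, aeval_X]
    · rw [hB', map_add, ← toZ_aeval, map_pow, aeval_X]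

end Pool.Agent.Results.MP_993212_an.StableShiftEquivalence
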